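import Pool.Agent.helper8.SF.Final

/-!
# MP_37e5fa_nt: multiples of large divisors of Fermat numbers are not sparse

Let `D` divide `F = 2 ^ 2 ^ m + 1` and a sum `S` of `k` terms `c i * 2 ^ a i`, and let `F` not
divide `S`. With `C` the sum of the `|c i|`, `D ^ M ≤ C ^ (M ^ k) * 4 ^ (2 ^ m)` for every `M ≥ 1`.
In particular, if `D ^ 2 ≥ F` and all `c i` are in `{-1, 0, 1}`, then `k > m / 3`.

Proof. We may take the least exponent to be `0`. The pigeonhole principle gives `q ≤ M ^ (k - 1)`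
and `b i` with `|q * a i - b i * 2 ^ m| ≤ 2 ^ m / M` for all `i`. Write `2 ^ m = q * t + r` with
`0 ≤ r < q`. The polynomial `X ^ q + 2 ^ r` is irreducible over `ℚ` (here `2 ^ m` having no odd
prime factor is used), and `X = 2 ^ (-t)` is a root of it modulo `F`; in terms of this `X`, `S` is
a combination of the `2 ^ (a i - t * b i) * X ^ (- b i)`, and at the complex roots of the
polynomial these have absolute value `2 ^ ((q * a i - b i * 2 ^ m) / q)`. So the norm of the
combination is nonzero, is divisible by `D` and is at most `C ^ q * 4 ^ (2 ^ m / M)`, after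
multiplication by `2 ^ (2 ^ m / M)`, which clears the denominators.
-/

namespace Pool.Agent.Results.MP_37e5fa_nt.SparseMultiples

/-- If `D` divides the Fermat number `F = 2 ^ 2 ^ m + 1` and `S = ∑ i, c i * 2 ^ a i` (`k` terms)
and `F` does not divide `S`, then `D ^ M ≤ C ^ (M ^ k) * 4 ^ (2 ^ m)` for all `M ≥ 1`, where
`C = ∑ i, |c i|`; and if all `|c i| ≤ 1` and `F ≤ D ^ 2`, then `m < 3 * k`. -/
theorem result (m k D : ℕ) (a : Fin k → ℕ) (c : Fin k → ℤ)
    (hD : D ∣ 2 ^ 2 ^ m + 1) (hS : (D : ℤ) ∣ ∑ i, c i * 2 ^ a i)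
    (hF : ¬ (2 ^ 2 ^ m + 1 : ℤ) ∣ ∑ i, c i * 2 ^ a i) :
    (∀ M : ℕ, 1 ≤ M → D ^ M ≤ (∑ i, (c i).natAbs) ^ M ^ k * 4 ^ 2 ^ m) ∧
      ((∀ i, |c i| ≤ 1) → 2 ^ 2 ^ m + 1 ≤ D ^ 2 → m < 3 * k) := by
  constructor
  · intro M hM
    have h := Pool.Agent.helper8.SF.main Finset.univ a c m D M hD hS hF hM
    rwa [Finset.card_univ, Fintype.card_fin] at h
  · intro hc hr
    have h := Pool.Agent.helper8.SF.digits Finset.univ a c m D hD hr (fun i _ => hc i) hS hF
    rwa [Finset.card_univ, Fintype.card_fin] at h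

end Pool.Agent.Results.MP_37e5fa_nt.SparseMultiples
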