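import Pool.Agent.helper8.SF.Final

/-!
# MP_a70bdc_nt: multiples of large divisors of `n ^ n + 1` are not sparse

Let `n = 2 ^ 2 ^ s`, so that `n ^ n + 1` is the Fermat number with index `s + 2 ^ s` (these and
`n = 1` are the only `n` for which `n ^ n + 1` can be prime). If `D` divides `n ^ n + 1` and a sum
`S` of `k` terms `c i * 2 ^ a i` that is not divisible by `n ^ n + 1`, then
`D ^ M ≤ C ^ (M ^ k) * (n ^ n) ^ 2` for all `M ≥ 1`, with `C` the sum of the `|c i|`.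
The proof is in `Pool.Agent.helper8.SF.Final`.
-/

namespace Pool.Agent.Results.MP_a70bdc_nt.SparseMultiples

/-- Let `n = 2 ^ 2 ^ s` and let `D` divide `n ^ n + 1` and `S = ∑ i, c i * 2 ^ a i` (`k` terms),
where `n ^ n + 1` does not divide `S`. Then `D ^ M ≤ C ^ (M ^ k) * (n ^ n) ^ 2` for all `M ≥ 1`,
where `C = ∑ i, |c i|`; and if all `|c i| ≤ 1` and `n ^ n + 1 ≤ D ^ 2`, then
`2 ^ s + s < 3 * k`. -/
theorem result (s n k D : ℕ) (hn : n = 2 ^ 2 ^ s) (a : Fin k → ℕ) (c : Fin k → ℤ)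
    (hD : D ∣ n ^ n + 1) (hS : (D : ℤ) ∣ ∑ i, c i * 2 ^ a i)
    (hF : ¬ ((n : ℤ) ^ n + 1) ∣ ∑ i, c i * 2 ^ a i) :
    (∀ M : ℕ, 1 ≤ M → D ^ M ≤ (∑ i, (c i).natAbs) ^ M ^ k * (n ^ n) ^ 2) ∧
      ((∀ i, |c i| ≤ 1) → n ^ n + 1 ≤ D ^ 2 → 2 ^ s + s < 3 * k) := by
  have hnn : n ^ n = 2 ^ 2 ^ (2 ^ s + s) := by
    have h1 : n ^ n = (2 ^ 2 ^ s) ^ n := by rw [← hn]
    rw [h1, ← pow_mul, hn, pow_add 2 (2 ^ s) s, mul_comm]
  have hnz : ((n : ℤ)) ^ n = 2 ^ 2 ^ (2 ^ s + s) := by exact_mod_cast hnn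
  rw [hnn] at hD ⊢
  rw [hnz] at hF
  constructor
  · intro M hM
    have h := Pool.Agent.helper8.SF.main Finset.univ a c _ D M hD hS hF hM
    rw [Finset.card_univ, Fintype.card_fin] at h
    have h4 : (4 : ℕ) ^ 2 ^ (2 ^ s + s) = (2 ^ 2 ^ (2 ^ s + s)) ^ 2 := by
      rw [← pow_mul, mul_comm (2 ^ (2 ^ s + s)) 2, pow_mul 2 2]; norm_num
    rwa [h4] at h
  · intro hc hr
    have h := Pool.Agent.helper8.SF.digits Finset.univ a c _ D hD hr (fun i _ => hc i) hS hF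
    rwa [Finset.card_univ, Fintype.card_fin] at h

end Pool.Agent.Results.MP_a70bdc_nt.SparseMultiples
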