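import Pool.Agent.helper36.NF.Final

set_option autoImplicit false

/-!
# No formula for a divisor of a Fermat number

`F m = 2 ^ (2 ^ m) + 1`. (1) Finitely many quotients of formulas (or of sequences periodic modulo all powers of
all large primes) can not give a proper divisor of `F m` for all `m` of an arithmetic progression.
(2) The sentence that `F m` is composite for all `m ≥ N` is not a consequence of the universal first order
sentences true in the integers (language `0, 1, -, +, *, <, 2 ^ x`, case distinction); for `N = 5` it is true in the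
integers if and only if `3, 5, 17, 257, 65537` are the only Fermat primes.
-/

namespace Pool.Agent.Results.MP_37e5fa_nt.NoFormula

open Pool.Agent.NoFormula FirstOrder FirstOrder.Language

theorem result :
    (∀ A : List ((ℕ → ℤ) × (ℕ → ℤ)),
      (∀ x ∈ A, (PeriodicModPowers x.1 ∧ PeriodicModPowers x.2) ∨ (EvFml x.1 ∧ EvFml x.2)) →
      ∀ a d : ℕ, 0 < d → ∃ b e : ℕ, 0 < e ∧ (∀ j : ℕ, ∃ i : ℕ, b + e * j = a + d * i) ∧
        ∀ x ∈ A, ∀ (j : ℕ) (D : ℤ), x.1 (b + e * j) ≠ 0 → x.1 (b + e * j) * D = x.2 (b + e * j) →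
          D ∣ 2 ^ (2 ^ (b + e * j)) + 1 → |D| = 1 ∨ |D| = 2 ^ (2 ^ (b + e * j)) + 1) ∧
    (∀ N : ℕ, ¬ (UnivTh ⊨ᵇ compositeFrom N)) ∧
    (ℤ ⊨ compositeFrom 5 ↔ ∀ m : ℕ, Nat.Prime (Nat.fermatNumber m) → m ≤ 4) :=
  ⟨final_FN3, pf_FOM, FOQb.2⟩

end Pool.Agent.Results.MP_37e5fa_nt.NoFormula
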