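import Pool.Agent.helper36.NF.Final

set_option autoImplicit false

/-!
# No formula for a divisor of `n ^ n + 1`

For `n = 2 ^ (2 ^ s)`, `m = s + 2 ^ s`: finitely many quotients of formulas in `m` (or of sequences periodic modulo all powers of
all large primes) can not give a proper divisor of `n ^ n + 1` for all `s` from some point on, not even for one `s` of
a suitable arithmetic progression of `s`.
-/

namespace Pool.Agent.Results.MP_a70bdc_nt.NoFormula

open Pool.Agent.NoFormula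

theorem result :
    ∀ A : List ((ℕ → ℤ) × (ℕ → ℤ)),
      (∀ x ∈ A, (PeriodicModPowers x.1 ∧ PeriodicModPowers x.2) ∨ (EvFml x.1 ∧ EvFml x.2)) →
      ∃ b e : ℕ, 0 < e ∧ ∀ x ∈ A, ∀ j s n m : ℕ, s = b + e * j → n = 2 ^ (2 ^ s) → m = s + 2 ^ s →
        ∀ D : ℤ, x.1 m ≠ 0 → x.1 m * D = x.2 m → D ∣ (n : ℤ) ^ n + 1 →
          |D| = 1 ∨ |D| = (n : ℤ) ^ n + 1 :=
  final_SI2

end Pool.Agent.Results.MP_a70bdc_nt.NoFormula
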